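import Pool.Agent.H57.AR.Targets
import Pool.Agent.H44.SO.Basic
import Pool.Agent.H44.EQD.CONN

/-!
# All reducts, all arities: blocks which consist of copies of two functions
-/

set_option autoImplicit false
set_option linter.unusedVariables false

namespace Pool.Agent.H39.AR

open Pool.Agent.H57.AR
open Pool.Agent.H68.BP Pool.Agent.H58.SF Pool.Agent.H53.GC Pool.Agent.H53.NR Pool.Agent.H53.GR
open Pool.Agent.H57.SO (Pal Col vt Exa Sb FBl Sbn Bh fib sigF Same Uni Can Stp)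
open Pool.Agent.H44.SO (ZS JS Loc OfT LInj sig0 str0 B2 vt_of)
open Pool.Agent.H44.EQ (BinPol sel kap)
open Pool.Agent.H44.EQD.CONN (con_sel con_nm con_kap_pos con_kap_neg con_lev con_nm_eq)
open Function
open Classical

/-- names of the same side and of related levels -/
def rl (V : Type) (a b : Prop × ℕ × V) : Prop :=
  a.1 = b.1 ∧ (a.2.1 = b.2.1 ∨ (a.2.1 = 0 ∨ a.2.1 = 7) ∨ (b.2.1 = 0 ∨ b.2.1 = 7))

theorem rl_symm {V : Type} {a b : Prop × ℕ × V} (h : rl V a b) : rl V b a := by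
  obtain ⟨h1, h2⟩ := h
  refine ⟨h1.symm, ?_⟩
  rcases h2 with h2 | h2 | h2
  · exact Or.inl h2.symm
  · exact Or.inr (Or.inr h2)
  · exact Or.inr (Or.inl h2)

/-- the names of one column are related -/
theorem rl_col {V Q : Type} {γ₀ γ₁ : Q → V} {e : Fin 6 → ℕ} {L : Set (Fin 6)} {s₀ s₁ : Set V}
    (he : ∀ l, e l = 0 ∨ e l = 7) (l : Fin 6) (p p' : Q) :
    rl V (con_nm γ₀ γ₁ e L s₀ s₁ (l, p)) (con_nm γ₀ γ₁ e L s₀ s₁ (l, p')) := by
  refine ⟨rfl, ?_⟩
  unfold con_nm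
  simp only
  by_cases h1 : l ∈ {l | sel L γ₀ γ₁ l p ∈ sel L s₀ s₁ l}
  · right
    left
    rw [con_kap_pos h1]
    exact he l
  · by_cases h2 : l ∈ {l | sel L γ₀ γ₁ l p' ∈ sel L s₀ s₁ l}
    · right
      right
      rw [con_kap_pos h2]
      exact he l
    · left
      rw [con_kap_neg h1, con_kap_neg h2]

theorem pf_CONR (hSYR : T_SYR) : T_CONR := by
  intro σ ρ V S X _ P 𝔸 𝔹 M c hs Q _ γ₀ γ₁ e L s₀ s₁ he hL
  obtain ⟨nm, hnm⟩ : ∃ nm, nm = con_nm γ₀ γ₁ e L s₀ s₁ := ⟨_, rfl⟩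
  have hfin : Finite (Set.range nm) := Set.finite_range nm
  have hrk : Injective (fun a : Set.range nm => toLex (a.1.2.1, a.1.2.2)) := by
    rintro ⟨_, ⟨l, p⟩, rfl⟩ ⟨_, ⟨l', p'⟩, rfl⟩ h
    simp only [EmbeddingLike.apply_eq_iff_eq, Prod.mk.injEq] at h
    apply Subtype.ext
    rw [hnm] at h ⊢
    refine Prod.ext ?_ (Prod.ext h.1 h.2)
    exact propext (con_lev he hL h.1).1
  obtain ⟨f, hf, hfr, hft, hfc⟩ := hSYR σ ρ V S X P 𝔸 𝔹 M c hs (Set.range nm) (ℕ ×ₗ V)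
    (fun a => toLex (a.1.2.1, a.1.2.2)) (fun a => a.1.2.2)
    (fun a b => rl V a.1 b.1) hrk (fun x y h => rl_symm h)
  have hinj : ∀ a b, f a = f b ↔ a = b := by
    intro a b
    refine ⟨fun h => hrk ?_, fun h => by rw [h]⟩
    rcases lt_trichotomy (toLex (a.1.2.1, a.1.2.2)) (toLex (b.1.2.1, b.1.2.2)) with h1 | h1 | h1
    · exact absurd h ((hf a b).2 h1).ne
    · exact h1
    · exact absurd h ((hf b a).2 h1).ne'
  obtain ⟨z, hz⟩ : ∃ z : Q → Fin 6 → V, z = fun p l => f ⟨nm (l, p), _, rfl⟩ := ⟨_, rfl⟩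
  have h3 : ∀ p p' l l', z p l = z p' l' ↔ ((l ∈ L ↔ l' ∈ L) ∧
      sel L γ₀ γ₁ l p = sel L γ₀ γ₁ l' p' ∧ (l = l' ∨ sel L γ₀ γ₁ l p ∈ sel L s₀ s₁ l)) := by
    intro p p' l l'
    rw [hz]
    simp only
    rw [hinj, Subtype.ext_iff, hnm]
    exact con_nm_eq he hL
  have hR : ∀ (l : Fin ρ.m) (w : Fin (ρ.ar l) → Fin 6 × Q),
      𝔹 l (fun i => z (w i).2 (w i).1) ↔
        (𝔹 l (fun i => sel L γ₀ γ₁ (w i).1 (w i).2) ∧ ∀ i j, nm (w i) = nm (w j) ∨
          (rl V (nm (w i)) (nm (w j)) ∧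
            sel L γ₀ γ₁ (w i).1 (w i).2 ≠ sel L γ₀ γ₁ (w j).1 (w j).2)) := by
    intro l w
    have h4 := hfr l (fun i => ⟨nm (w i), _, rfl⟩)
    rw [hz]
    simp only
    have h5 : ∀ i, nm ((w i).1, (w i).2) = nm (w i) := fun i => rfl
    have h6 : ∀ i, (nm (w i)).2.2 = sel L γ₀ γ₁ (w i).1 (w i).2 := by
      intro i
      rw [hnm]
      rfl
    have h7 : (fun i => (nm (w i)).2.2) = fun i => sel L γ₀ γ₁ (w i).1 (w i).2 := funext h6
    refine h4.trans (and_congr ?_ (forall₂_congr fun i j => or_congr ?_ (and_congr Iff.rfl ?_)))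
    · show 𝔹 l (fun i => (nm (w i)).2.2) ↔ _
      rw [h7]
    · rw [Subtype.ext_iff]
    · show (nm (w i)).2.2 ≠ (nm (w j)).2.2 ↔ _
      rw [h6, h6]
  have hty : ∀ p l, c (z p l) (z p l) = c (sel L γ₀ γ₁ l p) (sel L γ₀ γ₁ l p) := by
    intro p l
    rw [hz]
    simp only
    rw [hft, hnm]
    rfl
  have hvt : ∀ p l, vt P c (z p l) = vt P c (sel L γ₀ γ₁ l p) := by
    intro p l
    unfold vt
    rw [hty]
  have hB : ∀ p l l', z p l ≠ z p l' →
      c (z p l) (z p l') = Sum.inr (P.fr (vt P c (z p l)) (vt P c (z p l'))) := by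
    intro p l l' hne
    rw [hvt, hvt]
    have hne' : (⟨nm (l, p), _, rfl⟩ : Set.range nm) ≠ ⟨nm (l', p), _, rfl⟩ := by
      intro h
      apply hne
      rw [hz]
      simp only
      rw [h]
    have h4 := (hfc ⟨nm (l, p), _, rfl⟩ ⟨nm (l', p), _, rfl⟩ hne').2 (by
      rintro ⟨⟨h5, -⟩, h6⟩
      apply h6
      simp only
      rw [hnm] at h5 ⊢
      have h7 : l ∈ L ↔ l' ∈ L := iff_of_eq h5
      show sel L γ₀ γ₁ l p = sel L γ₀ γ₁ l' p
      rw [con_sel h7])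
    rw [hz]
    simp only
    rw [h4, hnm]
    rfl
  refine ⟨z, ?_, hB, ?_, ?_, h3⟩
  · intro l
    refine Prod.ext ?_ ?_
    · funext a b
      show (z a l = z b l) = (sel L γ₀ γ₁ l a = sel L γ₀ γ₁ l b)
      apply propext
      rw [h3]
      exact ⟨fun h => h.2.1, fun h => ⟨Iff.rfl, h, Or.inl rfl⟩⟩
    · funext R w
      show 𝔹 R (fun i => z (w i) l) = 𝔹 R (fun i => sel L γ₀ γ₁ l (w i))
      apply propext
      refine (hR R (fun i => (l, w i))).trans ⟨fun h => h.1, fun h => ⟨h, fun i j => ?_⟩⟩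
      by_cases h4 : sel L γ₀ γ₁ l (w i) = sel L γ₀ γ₁ l (w j)
      · left
        rw [hnm]
        exact (con_nm_eq he hL).2 ⟨Iff.rfl, h4, Or.inl rfl⟩
      · right
        refine ⟨?_, h4⟩
        rw [hnm]
        exact rl_col he l (w i) (w j)
  · intro p p' R w hw
    obtain ⟨pq, hpq⟩ : ∃ pq : Fin 6 ⊕ Fin 6 → Q, pq = Sum.elim (fun _ => p) (fun _ => p') :=
      ⟨_, rfl⟩
    obtain ⟨lq, hlq⟩ : ∃ lq : Fin 6 ⊕ Fin 6 → Fin 6, lq = Sum.elim id id := ⟨_, rfl⟩
    have h4 : ∀ q, Sum.elim (z p) (z p') q = z (pq q) (lq q) := by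
      intro q
      rw [hpq, hlq]
      rcases q with q | q <;> rfl
    have h5 : ∀ q, pq q = p ∨ pq q = p' := by
      intro q
      rw [hpq]
      rcases q with q | q
      · exact Or.inl rfl
      · exact Or.inr rfl
    simp only [h4] at hw ⊢
    have h6 := (hR R (fun i => (lq (w i), pq (w i)))).1 hw
    have h7 : ∀ i j, z (pq (w i)) (lq (w i)) ≠ z (pq (w j)) (lq (w j)) →
        ((lq (w i) ∈ L ↔ lq (w j) ∈ L) ∧
          sel L γ₀ γ₁ (lq (w i)) (pq (w i)) ≠ sel L γ₀ γ₁ (lq (w j)) (pq (w j))) := by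
      intro i j hij
      rcases h6.2 i j with h8 | h8
      · exfalso
        apply hij
        rw [h3]
        rw [hnm] at h8
        exact (con_nm_eq he hL).1 h8
      · refine ⟨?_, h8.2⟩
        have h9 := h8.1.1
        rw [hnm] at h9
        exact iff_of_eq h9
    have h8 : ∀ i j, z (pq (w i)) (lq (w i)) ≠ z (pq (w j)) (lq (w j)) → pq (w i) ≠ pq (w j) := by
      intro i j hij hp
      obtain ⟨h9, h10⟩ := h7 i j hij
      apply h10
      rw [hp, con_sel h9]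
    have h0 : 0 < ρ.ar R := (hs.base.ar R).1
    refine ⟨w ⟨0, h0⟩, ?_⟩
    by_cases h9 : ∀ i, z (pq (w i)) (lq (w i)) = z (pq (w ⟨0, h0⟩)) (lq (w ⟨0, h0⟩))
    · exact ⟨w ⟨0, h0⟩, fun i => Or.inl (h9 i)⟩
    · push Not at h9
      obtain ⟨j, hj⟩ := h9
      refine ⟨w j, fun i => ?_⟩
      by_contra hc
      push Not at hc
      have e1 := h8 i _ hc.1
      have e2 := h8 i _ hc.2
      have e3 := h8 j _ hj
      rcases h5 (w i) with a1 | a1 <;> rcases h5 (w j) with a2 | a2 <;>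
        rcases h5 (w ⟨0, h0⟩) with a3 | a3 <;>
        first
          | exact e1 (a1.trans a3.symm)
          | exact e2 (a1.trans a2.symm)
          | exact e3 (a2.trans a3.symm)
  · intro p s hty'
    obtain ⟨T, hT⟩ : ∃ T, T = {l | sel L γ₀ γ₁ l p ∈ sel L s₀ s₁ l} := ⟨_, rfl⟩
    rw [← hT]
    have hts : ∀ l, c (z p l) (z p l) = Sum.inl s := fun l => (hty p l).trans (hty' l)
    have hlt : ∀ l l', kap e T l < kap e T l' → z p l < z p l' := by
      intro l l' h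
      rw [hz]
      simp only
      rw [hf, Prod.Lex.toLex_lt_toLex]
      left
      rw [hnm]
      unfold con_nm
      simp only
      rw [← hT]
      exact h
    have hfree : ∀ l l', kap e T l < kap e T l' → c (z p l) (z p l') = Sum.inr (P.fr s s) := by
      intro l l' h
      rw [hB p l l' (hlt l l' h).ne, vt_of (hts l), vt_of (hts l')]
    refine ⟨fun l => ⟨hts l, hts l⟩, ?_, ?_, ?_⟩
    · intro l l' h
      obtain ⟨h1, h2⟩ := con_lev he hL h
      have h4 : z p l = z p l' := by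
        rw [h3]
        refine ⟨h1, by rw [con_sel h1], ?_⟩
        rcases h2 with h2 | h2
        · exact Or.inl h2
        · right
          have h5 := h2.1
          rw [hT] at h5
          exact h5
      exact ⟨h4, h4⟩
    · intro l l' h
      exact ⟨hlt l l' h, hlt l l' h, hlt l l' h, hlt l l' h⟩
    · intro l l' h
      exact ⟨hfree l l' h, hfree l l' h, hfree l l' h, hfree l l' h⟩

end Pool.Agent.H39.AR
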